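import Pool.Agent.H.MP_752880_co.B

namespace Pool.Agent.Results.MP_752880_co.Full
open Pool.Agent.H.MP_752880_co

theorem result : (∀ n g : ℕ, 1 ≤ n → (S n 3 g : ℚ) =
      (4 ^ (g + 1) - 1) * ((n : ℚ) - g - 1) / (3 * (g + 2)) * n.choose (2 * g + 3)) ∧
    ∀ n (s : Setoid (Fin n)), ∃! τ, IsTau s τ :=
  ⟨fun n g hn => main n hn g, fun _ s => tau_unique s⟩

end Pool.Agent.Results.MP_752880_co.Full
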